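import Pool.Agent.KS6_15.VW.Nodes
import Pool.Agent.KS6_15.VW.Up
import Pool.Agent.KS6_15.GU.Cmp
import Pool.Graph.R_seed8.Y747.Avg

/-! The mean excess function of the normalised gaps is uniformly close to the gap probability. -/

open Filter Topology Set MeasureTheory

namespace Pool.Agent.KS6_15

/-- the mean excess function of the first `N` normalised gaps -/
noncomputable def SS (N : ℕ) (s : ℝ) : ℝ := (∑ n ∈ Finset.Icc 1 N, max 0 (Y747.dl n - s)) / N

lemma SS_zero_le (ε : ℝ) (hε : 0 < ε) :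
    ∀ᶠ N : ℕ in atTop, ∑ n ∈ Finset.Icc 1 N, max 0 (Y747.dl n - 0) ≤ (1 + ε) * N := by
  obtain ⟨n0, h0⟩ := Y747.dl_nonneg
  obtain ⟨C, hC⟩ : ∃ C : ℝ, C = ∑ n ∈ Finset.range n0, |Y747.dl n| := ⟨_, rfl⟩
  filter_upwards [Y747.sum_dl_le (ε / 2) (by positivity),
    H707.SM.const_small C (ε / 2) (by positivity)] with N h1 h2
  have h3 : ∑ n ∈ Finset.Icc 1 N, max 0 (Y747.dl n - 0) ≤
      ∑ n ∈ Finset.Icc 1 N, (Y747.dl n + if n < n0 then |Y747.dl n| else 0) := by
    apply Finset.sum_le_sum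
    intro n _
    rw [sub_zero]
    split_ifs with h
    · apply max_le
      · linarith [neg_abs_le (Y747.dl n)]
      · linarith [abs_nonneg (Y747.dl n)]
    · rw [add_zero, max_eq_right (h0 n (not_lt.1 h))]
  have h4 : ∑ n ∈ Finset.Icc 1 N, (if n < n0 then |Y747.dl n| else 0) ≤ C := by
    rw [hC, ← Finset.sum_filter]
    apply Finset.sum_le_sum_of_subset_of_nonneg
    · intro n hn
      rw [Finset.mem_filter] at hn
      exact Finset.mem_range.2 hn.2
    · intro n _ _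
      exact abs_nonneg _
  rw [Finset.sum_add_distrib] at h3
  have e : (1 + ε) * (N : ℝ) = (1 + ε / 2) * N + ε / 2 * N := by ring
  linarith

lemma ex_conv {a s b : ℝ} (h1 : a ≤ s) (h2 : s ≤ b) (h3 : a < b) (d : ℝ) :
    max 0 (d - s) ≤ ((b - s) * max 0 (d - a) + (s - a) * max 0 (d - b)) / (b - a) := by
  have hba : 0 < b - a := by linarith
  rw [le_div_iff₀ hba]
  have k1 : 0 ≤ (b - s) * max 0 (d - a) := mul_nonneg (by linarith) (le_max_left _ _)
  have k2 : 0 ≤ (s - a) * max 0 (d - b) := mul_nonneg (by linarith) (le_max_left _ _)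
  have k3 : (b - s) * (d - a) ≤ (b - s) * max 0 (d - a) :=
    mul_le_mul_of_nonneg_left (le_max_right _ _) (by linarith)
  have k4 : (s - a) * (d - b) ≤ (s - a) * max 0 (d - b) :=
    mul_le_mul_of_nonneg_left (le_max_right _ _) (by linarith)
  rcases le_total 0 (d - s) with h | h
  · rw [max_eq_right h]
    nlinarith
  · rw [max_eq_left h]
    linarith

lemma SS_conv (N : ℕ) {a s b : ℝ} (h1 : a ≤ s) (h2 : s ≤ b) (h3 : a < b) :
    SS N s ≤ ((b - s) * SS N a + (s - a) * SS N b) / (b - a) := by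
  have hN : (0 : ℝ) ≤ N := Nat.cast_nonneg N
  have h : ∑ n ∈ Finset.Icc 1 N, max 0 (Y747.dl n - s) ≤
      ((b - s) * (∑ n ∈ Finset.Icc 1 N, max 0 (Y747.dl n - a)) +
        (s - a) * ∑ n ∈ Finset.Icc 1 N, max 0 (Y747.dl n - b)) / (b - a) := by
    rw [Finset.mul_sum, Finset.mul_sum, ← Finset.sum_add_distrib, Finset.sum_div]
    exact Finset.sum_le_sum fun n _ => ex_conv h1 h2 h3 _
  unfold SS
  refine (div_le_div_of_nonneg_right h hN).trans (le_of_eq ?_)
  ring

lemma SS_anti (N : ℕ) {s t : ℝ} (h : s ≤ t) : SS N t ≤ SS N s := by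
  unfold SS
  apply div_le_div_of_nonneg_right _ (Nat.cast_nonneg N)
  apply Finset.sum_le_sum
  intro n _
  exact max_le_max le_rfl (by linarith)

lemma SS_nonneg (N : ℕ) (s : ℝ) : 0 ≤ SS N s :=
  div_nonneg (Finset.sum_nonneg fun _ _ => le_max_left _ _) (Nat.cast_nonneg N)

lemma SS_lip {N : ℕ} (hN : 0 < N) {s : ℝ} (hs : 0 ≤ s) : SS N 0 - s ≤ SS N s := by
  have hN' : (0 : ℝ) < N := by exact_mod_cast hN
  unfold SS
  rw [sub_le_iff_le_add, div_add' _ _ _ hN'.ne']
  apply div_le_div_of_nonneg_right _ hN'.le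
  have h : ∑ n ∈ Finset.Icc 1 N, max 0 (Y747.dl n - 0) ≤
      ∑ n ∈ Finset.Icc 1 N, (max 0 (Y747.dl n - s) + s) := by
    apply Finset.sum_le_sum
    intro n _
    apply max_le
    · linarith [le_max_left 0 (Y747.dl n - s)]
    · linarith [le_max_right 0 (Y747.dl n - s)]
  rw [Finset.sum_add_distrib, Finset.sum_const, Nat.card_Icc, Nat.add_sub_cancel, nsmul_eq_mul] at h
  linarith

lemma of_le {x A ε : ℝ} {N : ℕ} (hN : 0 < N)
    (h : ∑ n ∈ Finset.Icc 1 N, max 0 (Y747.dl n - x) ≤ (A + ε) * N) : SS N x ≤ A + ε := by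
  have hN' : (0 : ℝ) < N := by exact_mod_cast hN
  unfold SS
  rwa [div_le_iff₀ hN']

lemma of_ge {x A ε : ℝ} {N : ℕ} (hN : 0 < N)
    (h : (A - ε) * N ≤ ∑ n ∈ Finset.Icc 1 N, max 0 (Y747.dl n - x)) : A - ε ≤ SS N x := by
  have hN' : (0 : ℝ) < N := by exact_mod_cast hN
  unfold SS
  rwa [le_div_iff₀ hN']

/-- **the mean excess function is uniformly close to the gap probability** -/
theorem fin1 (RH : RiemannHypothesis) : ∀ᶠ N : ℕ in atTop, ∀ s : ℝ, 0 ≤ s →
    |SS N s - GU.EG s| ≤ 1 / 10 := by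
  have he : (0 : ℝ) < 1 / 10000 := by norm_num
  filter_upwards [eventually_gt_atTop 0, SS_zero_le (1 / 10000) he,
    VW.sum_dl_ge RH (1 / 10000) he, VW.up_12 RH (1 / 10000) he, VW.up_1 RH (1 / 10000) he,
    VW.up_43 RH (1 / 10000) he, VW.up_125 RH (1 / 10000) he,
    VW.plus_ge RH (by norm_num) VW.node_085 (1 / 10000) he,
    VW.plus_ge RH (by norm_num) VW.node_090 (1 / 10000) he,
    VW.plus_ge RH (by norm_num) VW.node_095 (1 / 10000) he,
    VW.plus_ge RH (by norm_num) VW.node_100 (1 / 10000) he,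
    VW.plus_ge RH (by norm_num) VW.node_110 (1 / 10000) he,
    VW.plus_ge RH (by norm_num) VW.node_120 (1 / 10000) he] with N hN u0 l0 u12 u1 u43 u125
      l85 l90 l95 l100 l110 l120
  intro s hs
  have a1 := of_le hN u0
  have a2 : 1 - 1 / 10000 ≤ SS N 0 := by
    apply of_ge hN
    simpa using l0
  have a3 := of_le hN u12
  have a4 := of_le hN u1
  have a5 := of_le hN u43
  have a6 := of_le hN u125
  have b1 := of_ge hN l85
  have b2 := of_ge hN l90
  have b3 := of_ge hN l95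
  have b4 := of_ge hN l100
  have b5 := of_ge hN l110
  have b6 := of_ge hN l120
  norm_num at b1 b2 b3 b4 b5 b6
  refine GU.close (S := SS N) he.le le_rfl (fun a s b _ h1 h2 h3 => SS_conv N h1 h2 h3)
    (fun s t h => SS_anti N h) (fun s h => SS_lip hN h) (SS_nonneg N) a1 a2 a3 a4 a5 a6
    ?_ ?_ ?_ ?_ ?_ ?_ hs <;> norm_num <;> linarith

end Pool.Agent.KS6_15
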